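import Pool.Agent.W399.WP.GStm
set_option autoImplicit false

/-!
# Project WP, part GSH: from nonempty words to all words
-/

namespace Pool.Agent.W571.WP399

open Pool.Agent.W399.WP

section
variable {A : Type} (a0 : A)

/-- the letter which is put back -/
def pre (s : Bool) : List A := if s then [a0] else []

theorem strip (s : Bool) (W a b : List A) (h : pre a0 s ++ W = a ++ b) :
    ∃ (s' : Bool) (a' b' : List A), W = a' ++ b' ∧ b = pre a0 s' ++ b' ∧
      (∀ Z : List A, pre a0 s ++ (a' ++ Z) = a ++ (pre a0 s' ++ Z)) ∧ (s' = true → a' = []) := by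
  cases s with
  | false =>
    refine ⟨false, a, b, h, rfl, fun Z => rfl, fun h => ?_⟩
    exact absurd h (by decide)
  | true =>
    cases a with
    | nil =>
      exact ⟨true, [], W, rfl, h.symm, fun Z => rfl, fun _ => rfl⟩
    | cons x a =>
      have h1 : a0 :: W = x :: (a ++ b) := h
      obtain ⟨rfl, h2⟩ := List.cons.inj h1
      refine ⟨false, a, b, h2, rfl, fun Z => rfl, fun h => ?_⟩
      exact absurd h (by decide)

variable {X : Type} (C : X → Set (List A × List A))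

/-- completions of the new states -/
def CY (y : X × Bool × Bool) : Set (List A × List A) :=
  {p | (pre a0 y.2.1 ++ p.1, pre a0 y.2.2 ++ p.2) ∈ C y.1}

theorem step_strip {x y : X} {a v a' v' : List A} {s t s' t' : Bool}
    (h : Step C x a v y)
    (h1 : ∀ Z : List A, pre a0 s ++ (a' ++ Z) = a ++ (pre a0 s' ++ Z))
    (h2 : ∀ Z : List A, pre a0 t ++ (v' ++ Z) = v ++ (pre a0 t' ++ Z)) :
    Step (CY a0 C) (x, s, t) a' v' (y, s', t') := by
  intro U V hUV
  change (pre a0 s ++ (a' ++ U), pre a0 t ++ (v' ++ V)) ∈ C x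
  rw [h1, h2]
  exact h _ _ hUV

end

section
variable {M : Type} [CancelMonoid M] {A : Type} {φ : A → M} (R : RawData φ) (a0 : A)

/-- the top state -/
def tp : R.X × Bool × Bool := (R.i, true, true)

/-- the condition on the states -/
def OK (y : R.X × Bool × Bool) : Prop :=
  (CY a0 R.C y).Nonempty ∧ (∃ a v : List A, Step (CY a0 R.C) (tp R) a v y) ∧
    ∃ a v : List A, Step R.C R.i a v y.1

theorem mem_tp (u v : List A) : (u, v) ∈ CY a0 R.C (tp R) ↔ pr φ u = pr φ v := by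
  change (a0 :: u, a0 :: v) ∈ R.C R.i ↔ _
  rw [R.hi, pr_cons, pr_cons]
  constructor
  · rintro ⟨-, -, h⟩
    exact mul_left_cancel h
  · intro h
    exact ⟨List.cons_ne_nil _ _, List.cons_ne_nil _ _, by rw [h]⟩

theorem ok_tp : OK R a0 (tp R) :=
  ⟨⟨([], []), (mem_tp R a0 [] []).2 rfl⟩, ⟨[], [], Step.refl _⟩, ⟨[], [], Step.refl _⟩⟩

/-- the values of the pieces -/
def EY : Set M := R.E ∪ {m | φ a0 * m ∈ R.E}

theorem fin_EY : (EY R a0).Finite := by
  refine R.finE.union ?_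
  exact R.finE.preimage (fun a _ b _ h => mul_left_cancel h)

theorem mem_EY (s : Bool) (l : List A) (h : pr φ (pre a0 s ++ l) ∈ R.E) : pr φ l ∈ EY R a0 := by
  cases s with
  | false => exact Or.inl h
  | true =>
    right
    change φ a0 * pr φ l ∈ R.E
    rw [← pr_cons]
    exact h

end

/-- part GSH -/
theorem gsh : S_GSH := by
  intro M _ A hA φ R
  obtain ⟨a0⟩ := hA
  haveI := R.finX
  refine ⟨{
    X := {y : R.X × Bool × Bool // OK R a0 y}
    finX := inferInstance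
    C := fun y => CY a0 R.C y.1
    top := ⟨tp R, ok_tp R a0⟩
    hC := fun u v => mem_tp R a0 u v
    ne := fun x => x.2.1
    ctx := fun x => x.2.2.1
    E := EY R a0
    finE := fin_EY R a0
    uside := ?_
    vside := ?_
    awin := ?_ }⟩
  · rintro ⟨⟨x, s, t⟩, hx⟩ U₁ U₂ V hUV
    by_cases hU : U₁ = []
    · subst hU
      exact ⟨⟨(x, s, t), hx⟩, [], [], [], U₂, [], V, rfl, rfl, rfl, Step.refl _, hUV,
        Or.inl ⟨rfl, rfl⟩⟩
    · have h0 : ((pre a0 s ++ U₁) ++ U₂, pre a0 t ++ V) ∈ R.C x := by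
        rw [List.append_assoc]
        exact hUV
      obtain ⟨y, a, b₁, b₂, c, v₁, v₂, e1, e2, e3, e4, e5, e6⟩ :=
        R.uside x (pre a0 s ++ U₁) U₂ (pre a0 t ++ V) hx.2.2 h0
      obtain ⟨s', a', b₁', p1, p2, p3, p4⟩ := strip a0 s U₁ a b₁ e1
      obtain ⟨t', v₁', v₂', q1, q2, q3, q4⟩ := strip a0 t V v₁ v₂ e3
      have hs : Step (CY a0 R.C) (x, s, t) a' v₁' (y, s', t') := step_strip a0 R.C e4 p3 q3
      have hm : (b₁' ++ U₂, v₂') ∈ CY a0 R.C (y, s', t') := by
        change (pre a0 s' ++ (b₁' ++ U₂), pre a0 t' ++ v₂') ∈ R.C y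
        rw [← List.append_assoc, ← p2, ← q2]
        exact e5
      have hok : OK R a0 (y, s', t') := by
        obtain ⟨a2, w2, h2⟩ := hx.2.1
        obtain ⟨a3, w3, h3⟩ := hx.2.2
        exact ⟨⟨_, hm⟩, ⟨_, _, h2.trans hs⟩, ⟨_, _, h3.trans e4⟩⟩
      refine ⟨⟨(y, s', t'), hok⟩, a', b₁', b₂, c, v₁', v₂', p1, e2, q1, hs, hm, ?_⟩
      rcases e6 with ⟨k1, k2⟩ | ⟨k1, k2, k3⟩
      · left
        rw [k1] at p2
        exact ⟨(List.append_eq_nil_iff.1 p2.symm).2, k2⟩
      · right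
        refine ⟨?_, k2, ?_⟩
        · cases s' with
          | false =>
            intro h
            apply k1
            rw [p2, h]
            rfl
          | true =>
            intro h
            apply hU
            rw [p1, p4 rfl, h]
            rfl
        · apply mem_EY R a0 s'
          rw [← List.append_assoc, ← p2]
          exact k3
  · intro u v₁ v₂ huv
    have h0 : (a0 :: u, (a0 :: v₁) ++ v₂) ∈ R.C R.i := by
      rw [R.hi]
      refine ⟨List.cons_ne_nil _ _, List.cons_ne_nil _ _, ?_⟩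
      rw [List.cons_append, pr_cons, pr_cons, huv]
    obtain ⟨y, a₁, a₂, g, d₁, d₂, c, e1, e2, e3, e4, e5, e6⟩ := R.vside _ _ _ h0
    obtain ⟨s', a₁', a₂', p1, p2, p3, p4⟩ := strip a0 true u a₁ a₂ e1
    obtain ⟨t', g', d₁', q1, q2, q3, q4⟩ := strip a0 true v₁ g d₁ e2
    have hs : Step (CY a0 R.C) (tp R) a₁' g' (y, s', t') := step_strip a0 R.C e4 p3 q3
    have hm : (a₂', d₁' ++ v₂) ∈ CY a0 R.C (y, s', t') := by
      change (pre a0 s' ++ a₂', pre a0 t' ++ (d₁' ++ v₂)) ∈ R.C y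
      rw [← List.append_assoc, ← p2, ← q2]
      exact e5
    have hok : OK R a0 (y, s', t') := ⟨⟨_, hm⟩, ⟨_, _, hs⟩, ⟨_, _, e4⟩⟩
    refine ⟨⟨(y, s', t'), hok⟩, a₁', a₂', g', d₁', d₂, c, p1, q1, e3, hs, hm, ?_⟩
    rcases e6 with ⟨k1, k2⟩ | k3
    · left
      rw [k1] at q2
      exact ⟨(List.append_eq_nil_iff.1 q2.symm).2, k2⟩
    · right
      apply mem_EY R a0 t'
      rw [← List.append_assoc, ← q2]
      exact k3
  · intro k t s g m hk hpc h1 hm
    have h0 : (a0 :: k, (a0 :: t) ++ s) ∈ R.C R.i := by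
      rw [R.hi]
      refine ⟨List.cons_ne_nil _ _, List.cons_ne_nil _ _, ?_⟩
      rw [List.cons_append, pr_cons, pr_cons, hk]
    rcases R.awin (a0 :: k) (a0 :: t) s g m h0
      (fun p q r h h' => hpc p q r h (Or.inl h')) h1 hm with
      ⟨y, k₁, k₂, s₂, s₁, e1, e2, e3, e4, e5⟩ | ⟨t₁, t₂, s₂, s₁, e1, e2, e3, e4, e5⟩
    · left
      obtain ⟨s', k₁', k₂', p1, p2, p3, p4⟩ := strip a0 true k k₁ k₂ e1
      have hs : Step (CY a0 R.C) (tp R) k₁' (t ++ s₂) (y, s', false) := by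
        refine step_strip a0 R.C e4 p3 ?_
        intro Z
        rfl
      have hm' : (k₂', s₁) ∈ CY a0 R.C (y, s', false) := by
        change (pre a0 s' ++ k₂', s₁) ∈ R.C y
        rw [← p2]
        exact e5
      have hok : OK R a0 (y, s', false) := ⟨⟨_, hm'⟩, ⟨_, _, hs⟩, ⟨_, _, e4⟩⟩
      exact ⟨⟨(y, s', false), hok⟩, k₁', k₂', s₂, s₁, p1, e2, e3, hs, hm'⟩
    · right
      obtain ⟨s', t₁', t₂', p1, p2, p3, p4⟩ := strip a0 true t t₁ t₂ e1
      refine ⟨t₁', t₂', s₂, s₁, p1, e2, ?_, e4, e5⟩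
      apply mem_EY R a0 s'
      rw [← List.append_assoc, ← p2]
      exact e3

end Pool.Agent.W571.WP399
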