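import Pool.Agent.W399.WP.GStm
set_option autoImplicit false

/-!
# Project WP, part GV: a boundary in the second word
-/

namespace Pool.Agent.W571.WP399

open Pool.Agent.W399.WP Pool.Agent.H966R2.CF

section
variable {A : Type} {g : ContextFreeGrammar (Option A)}

theorem split_uniq (U u : List A) (X Y : List (Option A))
    (h : U.map some ++ none :: X = u.map some ++ none :: Y) : U = u ∧ X = Y := by
  induction U generalizing u with
  | nil =>
    cases u with
    | nil =>
      simp only [List.map_nil, List.nil_append, List.cons.injEq, true_and] at h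
      exact ⟨rfl, h⟩
    | cons x u =>
      simp at h
  | cons y U ih =>
    cases u with
    | nil => simp at h
    | cons x u =>
      simp only [List.map_cons, List.cons_append, List.cons.injEq, Option.some.injEq] at h
      obtain ⟨h1, h2⟩ := ih u h.2
      exact ⟨by rw [h.1, h1], h2⟩

theorem map_some_inj {u v : List A} (h : u.map (some : A → Option A) = v.map some) : u = v :=
  (List.map_injective_iff.2 (Option.some_injective A)) h

theorem cg_pr {M : Type} [CancelMonoid M] {φ : A → M} (hg : g.language = WPM φ) {U V : List A}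
    (h : (U, V) ∈ CG g (st g)) : pr φ U = pr φ V := by
  have h0 : D g Set.univ (st g) (U.map some ++ none :: V.reverse.map some) := h
  have h1 : (U.map some ++ none :: V.reverse.map some) ∈ g.language := h0.derives
  rw [hg] at h1
  obtain ⟨u, v, -, -, h2, h3⟩ := h1
  obtain ⟨h4, h5⟩ := split_uniq _ _ _ _ h3
  have h6 := List.reverse_injective (map_some_inj h5)
  rw [h4, h6, h2]

theorem ctx_eq {M : Type} [CancelMonoid M] {φ : A → M} (hg : g.language = WPM φ) {α : Fm g}
    (h : HasCtx g α) : ∃ p q : M, ∀ U V : List A, (U, V) ∈ CG g α →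
      p * pr φ U = q * pr φ V := by
  obtain ⟨a, v, hs⟩ := h
  refine ⟨pr φ a, pr φ v, fun U V hUV => ?_⟩
  have := cg_pr hg (hs U V hUV)
  rw [pr_append, pr_append] at this
  exact this

theorem forms_tail {s : Symbol (Option A) g.NT} {α : Fm g} (h : (s :: α) ∈ Forms g) :
    α ∈ Forms g := by
  rcases h with h | ⟨r, hr, h⟩
  · exact Or.inl ((List.suffix_cons s α).trans h)
  · exact Or.inr ⟨r, hr, (List.suffix_cons s α).trans h⟩

theorem forms_output {r : ContextFreeRule (Option A) g.NT} (hr : r ∈ g.rules) :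
    r.output ∈ Forms g := Or.inr ⟨r, hr, List.suffix_rfl⟩

theorem hasCtx_step {α β : Fm g} {a v : List A} (h : HasCtx g α) (hs : Step (CG g) α a v β) :
    HasCtx g β := by
  obtain ⟨a', v', h'⟩ := h
  exact ⟨_, _, h'.trans hs⟩

theorem step_term (x : A) (α : Fm g) :
    Step (CG g) (Symbol.terminal (some x) :: α) [x] [] α := by
  intro U V h
  exact D.term (some x) α _ h

theorem split_cases (U : List A) (X u w : List (Option A))
    (h : u ++ w = U.map some ++ none :: X) :
    (∃ U' U'' : List A, U = U' ++ U'' ∧ u = U'.map some ∧ w = U''.map some ++ none :: X) ∨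
    (∃ X' X'' : List (Option A), X = X' ++ X'' ∧ u = U.map some ++ none :: X' ∧ w = X'') := by
  induction u generalizing U with
  | nil =>
    left
    exact ⟨[], U, rfl, rfl, h⟩
  | cons t u ih =>
    cases U with
    | nil =>
      simp only [List.map_nil, List.nil_append, List.cons_append, List.cons.injEq] at h
      right
      exact ⟨u, w, h.2.symm, by rw [h.1]; rfl, rfl⟩
    | cons x U =>
      simp only [List.map_cons, List.cons_append, List.cons.injEq] at h
      rcases ih U h.2 with ⟨U', U'', h1, h2, h3⟩ | ⟨X', X'', h1, h2, h3⟩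
      · left
        exact ⟨x :: U', U'', by rw [h1]; rfl, by rw [h.1, h2]; rfl, h3⟩
      · right
        exact ⟨X', X'', h1, by rw [h.1, h2]; rfl, h3⟩

theorem step_nonterm_left {r : ContextFreeRule (Option A) g.NT} (hr : r ∈ g.rules) (α : Fm g)
    {u' : List A} (h : D g Set.univ r.output (u'.map some)) :
    Step (CG g) (Symbol.nonterminal r.input :: α) u' [] α := by
  intro U V hUV
  have h1 := D.nonterm r hr (Set.mem_univ _) α _ _ h hUV
  change D g Set.univ _ ((u' ++ U).map some ++ none :: ([] ++ V).reverse.map some)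
  rw [List.map_append, List.append_assoc]
  exact h1

theorem cg_nonterm_right {r : ContextFreeRule (Option A) g.NT} (hr : r ∈ g.rules) (α : Fm g)
    {w U V : List A} (h : Dv g α w) (hUV : (U, V) ∈ CG g r.output) :
    (U, w.reverse ++ V) ∈ CG g (Symbol.nonterminal r.input :: α) := by
  have h1 := D.nonterm r hr (Set.mem_univ _) α _ _ hUV h
  change D g Set.univ _ (U.map some ++ none :: (w.reverse ++ V).reverse.map some)
  rw [List.reverse_append, List.reverse_reverse, List.map_append]
  simpa using h1

theorem step_nonterm_right {r : ContextFreeRule (Option A) g.NT} (hr : r ∈ g.rules) (α : Fm g)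
    {w : List A} (h : Dv g α w.reverse) :
    Step (CG g) (Symbol.nonterminal r.input :: α) [] w r.output := by
  intro U V hUV
  have h1 := cg_nonterm_right hr α h hUV
  rw [List.reverse_reverse] at h1
  exact h1

/-- splitting of a mapped reversed word -/
theorem split_rev {v : List A} {X' X'' : List (Option A)}
    (h : v.reverse.map some = X' ++ X'') :
    ∃ W Z : List A, v = W ++ Z ∧ X' = Z.reverse.map some ∧ X'' = W.reverse.map some := by
  obtain ⟨l1, l2, h1, h2, h3⟩ := List.map_eq_append_iff.1 h
  refine ⟨l2.reverse, l1.reverse, ?_, ?_, ?_⟩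
  · rw [← List.reverse_append, ← h1, List.reverse_reverse]
  · rw [List.reverse_reverse, h2]
  · rw [List.reverse_reverse, h3]

theorem gv_aux {M : Type} [CancelMonoid M] {φ : A → M} (hg : g.language = WPM φ) {α : Fm g}
    {W : List (Option A)} (hD : D g Set.univ α W) : α ∈ Forms g → HasCtx g α →
    ∀ u v₁ v₂ : List A, W = u.map some ++ none :: (v₁ ++ v₂).reverse.map some →
    ∃ y ∈ Forms g, ∃ a₁ a₂ h d₁ d₂ c : List A, u = a₁ ++ a₂ ∧ v₁ = h ++ d₁ ∧ v₂ = d₂ ++ c ∧
      Step (CG g) α a₁ h y ∧ (a₂, d₁ ++ v₂) ∈ CG g y ∧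
      ((d₁ = [] ∧ d₂ = []) ∨ pr φ (d₁ ++ d₂) ∈ EG g φ) := by
  induction hD with
  | nil =>
    intro _ _ u v₁ v₂ h
    simp at h
  | term t α' w' hD ih =>
    intro hα hctx u v₁ v₂ h
    cases u with
    | nil =>
      simp only [List.map_nil, List.nil_append, List.cons.injEq] at h
      obtain ⟨rfl, rfl⟩ := h
      refine ⟨_, hα, [], [], [], v₁, v₂, [], rfl, rfl, (List.append_nil _).symm, Step.refl _,
        D.term none α' _ hD, Or.inr ?_⟩
      refine ⟨α', forms_tail hα, Or.inr ⟨?_, (v₁ ++ v₂).reverse, hD, by rw [List.reverse_reverse]⟩⟩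
      obtain ⟨p, q, hpq⟩ := ctx_eq hg hctx
      refine ⟨p, q, 1, fun w hw => ?_⟩
      have h1 : (([] : List A), w.reverse) ∈ CG g (Symbol.terminal none :: α') := by
        change D g Set.univ _ (none :: w.reverse.reverse.map some)
        rw [List.reverse_reverse]
        exact D.term none α' _ hw
      have h2 := hpq _ _ h1
      rw [pr_nil, mul_one] at h2
      rw [mul_one]
      exact h2
    | cons x u =>
      simp only [List.map_cons, List.cons_append, List.cons.injEq] at h
      obtain ⟨rfl, h⟩ := h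
      have hs := step_term (g := g) x α'
      obtain ⟨y, hy, a₁, a₂, h', d₁, d₂, c, e1, e2, e3, e4, e5, e6⟩ :=
        ih (forms_tail hα) (hasCtx_step hctx hs) u v₁ v₂ h
      exact ⟨y, hy, x :: a₁, a₂, h', d₁, d₂, c, by rw [e1]; rfl, e2, e3, hs.trans e4, e5, e6⟩
  | nonterm r hr hS α' u0 w0 h1 h2 ih1 ih2 =>
    intro hα hctx u v₁ v₂ h
    have hall : (u, v₁ ++ v₂) ∈ CG g (Symbol.nonterminal r.input :: α') := by
      change D g Set.univ _ (u.map some ++ none :: (v₁ ++ v₂).reverse.map some)
      rw [← h]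
      exact D.nonterm r hr hS α' _ _ h1 h2
    rcases split_cases _ _ _ _ h with ⟨u', u'', k1, k2, k3⟩ | ⟨X', X'', k1, k2, k3⟩
    · subst k2
      have hs := step_nonterm_left hr α' h1
      obtain ⟨y, hy, a₁, a₂, h', d₁, d₂, c, e1, e2, e3, e4, e5, e6⟩ :=
        ih2 (forms_tail hα) (hasCtx_step hctx hs) u'' v₁ v₂ k3
      exact ⟨y, hy, u' ++ a₁, a₂, h', d₁, d₂, c, by rw [k1, e1, List.append_assoc], e2, e3,
        hs.trans e4, e5, e6⟩
    · obtain ⟨W1, Z, k4, k5, k6⟩ := split_rev k1
      subst k3
      rw [k6] at h2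
      rw [k5] at k2
      have hW : Dv g α' W1.reverse := h2
      have hs := step_nonterm_right hr α' hW
      have huZ : (u, Z) ∈ CG g r.output := by
        change D g Set.univ _ (u.map some ++ none :: Z.reverse.map some)
        rw [← k2]
        exact h1
      rcases List.append_eq_append_iff.1 k4 with ⟨d, m1, m2⟩ | ⟨d, m1, m2⟩
      · -- `W1 = v₁ ++ d`, `v₂ = d ++ Z`
        refine ⟨_, hα, [], u, [], v₁, d, Z, rfl, rfl, m2, Step.refl _, hall, Or.inr ?_⟩
        refine ⟨α', forms_tail hα, Or.inr ⟨?_, W1.reverse, hW, by rw [List.reverse_reverse, m1]⟩⟩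
        obtain ⟨p, q, hpq⟩ := ctx_eq hg hctx
        refine ⟨p * pr φ u, q, pr φ Z, fun w hw => ?_⟩
        have h3 := hpq _ _ (cg_nonterm_right hr α' hw huZ)
        rw [pr_append, ← mul_assoc] at h3
        exact h3
      · -- `v₁ = W1 ++ d`, `Z = d ++ v₂`
        obtain ⟨y, hy, a₁, a₂, h', d₁, d₂, c, e1, e2, e3, e4, e5, e6⟩ :=
          ih1 (forms_output hr) (hasCtx_step hctx hs) u d v₂ (by rw [k2, m2])
        exact ⟨y, hy, a₁, a₂, W1 ++ h', d₁, d₂, c, e1, by rw [m1, e2, List.append_assoc], e3,
          hs.trans e4, e5, e6⟩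

end

/-- part GV -/
theorem gv : S_GV := by
  intro M _ A φ g hg α hα hctx u v₁ v₂ h
  exact gv_aux hg h hα hctx u v₁ v₂ rfl

end Pool.Agent.W571.WP399
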